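import Pool.Agent.Run7.h260.VU.Iface

/-!
# Piece P15: the expansion of the Kashaev invariants for all `n + |m| ≥ M`
-/

set_option autoImplicit false

namespace Run7.h393.VU

open Filter Topology Metric Function Finset
open Pool.Agent.W711.HT hiding bb
open Pool.Agent.Y472 Pool.Agent.Y472.K
open Pool.Agent.W719.AX (UX EXY)
open Run7.h260.VC Run7.h260.VX Run7.h260.VU
open Pool.Agent.Y482.Ph (GXc nearS SB pz)
open Pool.Agent.Y852.PH.MX (exy_near exy_phase exy_congr pz_eq)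
open GapVol (lob)
open scoped Real

lemma Pq_diff (N j i : ℕ) : Differentiable ℂ (Pq N j i) := by
  unfold Pq
  fun_prop

lemma Pq_even (N j i : ℕ) (z : ℂ) : Pq N j i (-z) = Pq N j i z := by
  unfold Pq
  rw [Complex.cos_neg]

lemma TN_diff (n : ℕ) [NeZero n] (ρ : ℝ) (N : ℕ) : Differentiable ℂ (TN n ρ N) := by
  unfold TN Pool.Agent.Y472.K.Qc
  refine Differentiable.const_mul ?_ _
  refine Differentiable.fun_sum fun c _ => Differentiable.const_mul ?_ _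
  refine Differentiable.fun_finsetProd fun r _ => Pq_diff _ _ _

lemma TN_even (n : ℕ) [NeZero n] (ρ : ℝ) (N : ℕ) (z : ℂ) : TN n ρ N (-z) = TN n ρ N z := by
  unfold TN Pool.Agent.Y472.K.Qc
  congr 1
  refine sum_congr rfl fun c _ => ?_
  congr 1
  exact prod_congr rfl fun r _ => Pq_even _ _ _ _

lemma phase_step (n : ℕ) [NeZero n] (m : ℤ) (v : ℂ) (y : ℕ → ℂ)
    (h1 : EXY (fun N => SB N (wd n) m) v y) (hy : y 0 ≠ 0) :
    ∃ y' : ℕ → ℂ, y' 0 ≠ 0 ∧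
      EXY (fun N => Pool.Agent.H550R3.Jones.cjones N 2 (ftw m ++ bw (wd n)) (vN N)) v y' := by
  have hne : wd n ≠ [] := by
    rw [Ne, List.replicate_eq_nil_iff]
    exact NeZero.ne n
  obtain ⟨y', hy', h2⟩ := exy_phase (a := fun N => Pool.Agent.H550R3.Jones.cjones N 2
      (ftw m ++ bw (wd n)) (vN N)) h1 hy
    (K0 := (-1) ^ n) (pow_ne_zero _ (by norm_num)) 0 (4 * π * Complex.I * m) (by
      filter_upwards [eventually_ge_atTop 2] with N hN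
      rw [Pool.Agent.Y814.PH.exp_formula N (wd n) m hN hne, pz_eq N (by omega), wts_wd]
      have : (wd n).length = n := by simp [wd]
      rw [this]
      simp)
  rw [add_zero] at h2
  exact ⟨y', hy', h2⟩

lemma Rc_sub_ball {R δ : ℝ} (h : 2 * R < δ) {z : ℂ} (hz : z ∈ Rc R R) : z ∈ ball (0 : ℂ) δ := by
  rw [mem_ball_zero_iff]
  have := Complex.norm_le_abs_re_add_abs_im z
  have h1 := hz.1
  have h2 := hz.2
  linarith

lemma vv_eq (n : ℕ) [NeZero n] (m : ℤ) (z : ℂ) : qq (2 * m) (Gv n) z = vv n m z := by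
  unfold qq vv
  push_cast
  ring

/-- the case of large `n` -/
lemma large (h1 : S_P1) (h2 : S_P2) (h3 : S_P3) (h4 : S_P4) (h7 : S_P7) (h8 : S_P8) (h13 : S_P13)
    (h14 : C_P14) : ∃ (C : ℝ) (n₀ : ℕ), 0 < C ∧ 1 ≤ n₀ ∧ ∀ (n : ℕ) [NeZero n] (m : ℤ), n₀ ≤ n →
    ∃ (z : ℂ) (y : ℕ → ℂ), 0 < z.im ∧ ‖z‖ ≤ C / (n + |(m : ℝ)|) ∧
    Complex.I * m * z / π + Complex.I + deriv (Gv n) z = 0 ∧
    ‖vv n m z - Gv n 0‖ ≤ C / (n + |(m : ℝ)|) ∧ y 0 ≠ 0 ∧
    EXY (fun N => Pool.Agent.H550R3.Jones.cjones N 2 (ftw m ++ bw (wd n)) (vN N)) (vv n m z) y := by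
  obtain ⟨ρ₀, hρ₀, h14⟩ := h14
  obtain ⟨κ, c, hκ, hc, h4⟩ := h4 h1 h2 h3 ρ₀ hρ₀
  obtain ⟨hGn, δ, C7, hδ, hδ1, hC7, h7⟩ := h7
  have hd2 : deriv (deriv (Gv 1)) 0 = ((-(1 / (π * √3)) : ℝ) : ℂ) := by
    simpa using Gv_deriv2 (n := 1)
  obtain ⟨C, K₀, hC, hK₀, h8⟩ := h8 (Gv 1) (1 / (π * √3)) δ (by positivity) hδ (fun z hz => by
    have := h7 z (le_of_lt (by simpa using hz))
    exact ⟨this.2.2.2.2.2.1, this.2.2.2.2.2.2.1⟩) hd2
  obtain ⟨K, hK⟩ : ∃ K : ℝ, K = max K₀ (2 * C / c + 1) := ⟨_, rfl⟩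
  have hKK : K₀ ≤ K := hK ▸ le_max_left _ _
  have hK2 : 2 * C / c + 1 ≤ K := hK ▸ le_max_right _ _
  have hK0 : 0 < K := lt_of_lt_of_le hK₀ hKK
  have hcK : 2 * C < c * K ^ 2 := by
    have e1 : 0 < 2 * C / c := by positivity
    have e2 : 1 ≤ K := by linarith
    have e3 : 2 * C / c < K := by linarith
    rw [div_lt_iff₀ hc] at e3
    nlinarith [mul_nonneg (mul_nonneg hc.le hK0.le) (sub_nonneg.2 e2)]
  obtain ⟨n₁, hn₁, h8⟩ := h8 K hKK
  obtain ⟨n₂, h14⟩ := h14 K hK0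
  obtain ⟨n₃, hn₃⟩ := exists_nat_gt (2 * C / κ)
  refine ⟨C, max n₁ (max n₂ n₃), hC, hn₁.trans (le_max_left _ _), fun n _ m hn => ?_⟩
  have hn1 : n₁ ≤ n := (le_max_left _ _).trans hn
  have hn2 : n₂ ≤ n := (le_max_left _ _).trans ((le_max_right _ _).trans hn)
  have hn3 : n₃ ≤ n := (le_max_right _ _).trans ((le_max_right _ _).trans hn)
  have hn0 : (0 : ℝ) < n := by exact_mod_cast Nat.pos_of_ne_zero (NeZero.ne n)
  obtain ⟨hRδ, hR1, h8⟩ := h8 n hn1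
  obtain ⟨z, hz, hzim, hzn, hcrit, hsad, hval, c', hc', hbd⟩ := h8 m
  have hfun : (fun χ => (n : ℂ) * Gv 1 χ) = Gv n := funext fun χ => (hGn n χ).symm
  rw [hfun] at hcrit hsad hval hbd
  rw [vv_eq] at hval
  have hGv0 : (n : ℂ) * Gv 1 0 = Gv n 0 := (hGn n 0).symm
  rw [hGv0] at hval
  have hR : 0 < K / n := by positivity
  obtain ⟨A, hA⟩ := h14 n hn2
  obtain ⟨y, hy0, hexy⟩ := h13 (K / n) c' hR hR1 hc' (TN n ρ₀) (Gv n) A (TN_diff n ρ₀)
    (TN_even n ρ₀) (fun w hw => by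
      rw [← hfun]
      have := h7 w (le_of_lt (by simpa using Rc_sub_ball hRδ hw))
      exact (this.2.2.2.2.2.1.differentiableAt.const_mul _).differentiableWithinAt)
    (fun w hw => by
      have := h7 w (le_of_lt (by simpa using Rc_sub_ball hRδ hw))
      rw [hGn n (-w), hGn n w, this.2.2.2.2.2.2.1]) hA m z hz hzim hsad hbd
  rw [vv_eq] at hexy
  have hCn : C / (n + |(m : ℝ)|) ≤ C / n := by
    refine div_le_div_of_nonneg_left hC.le hn0 ?_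
    linarith [abs_nonneg (m : ℝ)]
  have hV1 : |(vv n m z).re - G0 n| ≤ C / n := by
    have e2 := Complex.abs_re_le_norm (vv n m z - Gv n 0)
    rw [Complex.sub_re, Gv_zero_re] at e2
    exact e2.trans (hval.trans hCn)
  have hVlo := (abs_le.1 hV1).1
  obtain ⟨μ, hμ⟩ : ∃ μ : ℝ, μ = min κ (c * n * (K / n) ^ 2) := ⟨_, rfl⟩
  have hCn0 : 0 < C / n := by positivity
  have hμ2 : 2 * (C / n) < μ := by
    rw [hμ, lt_min_iff]
    constructor
    · have e1 : 2 * C / κ < n := lt_of_lt_of_le hn₃ (by exact_mod_cast hn3)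
      rw [div_lt_iff₀ hκ] at e1
      rw [← mul_div_assoc, div_lt_iff₀ hn0]
      linarith
    · have e1 : c * n * (K / n) ^ 2 = c * K ^ 2 / n := by
        field_simp
      rw [e1, ← mul_div_assoc]
      exact div_lt_div_of_pos_right hcK hn0
  have h5 : EXY (fun N => SB N (wd n) m) (vv n m z) (fun k => 1 * y k) := by
    refine exy_near 1 (show 0 < μ - C / n by linarith) hexy ?_
    filter_upwards [h4 n (K / n) hR hR1 m] with N herr
    rw [one_mul]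
    rw [← hμ] at herr
    refine herr.trans (Real.exp_le_exp.2 (mul_le_mul_of_nonneg_left ?_ (Nat.cast_nonneg N)))
    linarith
  obtain ⟨y', hy', h6⟩ := phase_step n m _ _ h5 (by simpa using hy0)
  exact ⟨z, y', hzim, hzn, hcrit, hval, hy', h6⟩

/-- P15 -/
theorem t_P15 : S_P15 := by
  intro h1 h2 h3 h4 h7 h8 h13 h14
  obtain ⟨C, n₀, hC, hn₀, hL⟩ := large h1 h2 h3 h4 h7 h8 h13 h14
  choose Cf Mf hCf hMf hf using fun k : ℕ => main_exy (k + 1)
  have hn₀' : (1 : ℝ) ≤ n₀ := by exact_mod_cast hn₀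
  have hSC : 0 ≤ ∑ k ∈ range n₀, Cf k := sum_nonneg fun k _ => (hCf k).le
  have hSM : 0 ≤ ∑ k ∈ range n₀, Mf k := sum_nonneg fun k _ => (hMf k).le
  refine ⟨C + 2 * ∑ k ∈ range n₀, Cf k, 2 * n₀ + ∑ k ∈ range n₀, Mf k, by linarith, by linarith,
    fun n _ m hm => ?_⟩
  have hn0 : (0 : ℝ) < n := by exact_mod_cast Nat.pos_of_ne_zero (NeZero.ne n)
  have hden : 0 < (n : ℝ) + |(m : ℝ)| := by positivity
  by_cases hn : n₀ ≤ n
  · obtain ⟨z, y, a1, a2, a3, a4, a5, a6⟩ := hL n m hn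
    have hle : C / (n + |(m : ℝ)|) ≤ (C + 2 * ∑ k ∈ range n₀, Cf k) / (n + |(m : ℝ)|) :=
      div_le_div_of_nonneg_right (by linarith) hden.le
    exact ⟨z, y, a1, a2.trans hle, a3, a4.trans hle, a5, a6⟩
  · rw [not_le] at hn
    obtain ⟨k, hk⟩ := Nat.exists_eq_succ_of_ne_zero (NeZero.ne n)
    subst hk
    have hkn : k ∈ range n₀ := mem_range.2 (by omega)
    have hCk : Cf k ≤ ∑ k ∈ range n₀, Cf k :=
      single_le_sum (fun i _ => (hCf i).le) hkn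
    have hMk : Mf k ≤ ∑ k ∈ range n₀, Mf k :=
      single_le_sum (fun i _ => (hMf i).le) hkn
    have hnr : ((k.succ : ℕ) : ℝ) ≤ n₀ := by exact_mod_cast hn.le
    have hm1 : (n₀ : ℝ) + Mf k ≤ |(m : ℝ)| := by linarith
    have hmp : 0 < |(m : ℝ)| := by have := hMf k; linarith
    obtain ⟨z, y, a1, a2, a3, a4, a5, a6⟩ := hf k m (by linarith)
    have hle : Cf k / |(m : ℝ)| ≤ (C + 2 * ∑ k ∈ range n₀, Cf k) / ((k.succ : ℕ) + |(m : ℝ)|) := by
      rw [div_le_div_iff₀ hmp hden]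
      have e1 : ((k.succ : ℕ) : ℝ) + |(m : ℝ)| ≤ 2 * |(m : ℝ)| := by
        have := hMf k
        linarith
      calc Cf k * (((k.succ : ℕ) : ℝ) + |(m : ℝ)|) ≤ Cf k * (2 * |(m : ℝ)|) :=
            mul_le_mul_of_nonneg_left e1 (hCf k).le
        _ = (2 * Cf k) * |(m : ℝ)| := by ring
        _ ≤ (C + 2 * ∑ k ∈ range n₀, Cf k) * |(m : ℝ)| :=
            mul_le_mul_of_nonneg_right (by linarith) hmp.le
    exact ⟨z, y, a1, a2.trans hle, a3, a4.trans hle, a5, a6⟩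

end Run7.h393.VU
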